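import Pool.Agent.H852R2.EX.Defs

namespace RC852
open RC14 Finset

namespace REPaux

variable {n q : ℕ} {K : Type*}

theorem edg_length (g : K → Equiv.Perm (Fin n)) (b : Fin q → Equiv.Perm (Fin n))
    (u : List (K × (Fin q × Bool))) (p : Fin n) : (edg g b u p).length = u.length := by
  induction u with
  | nil => rfl
  | cons c u ih => simp [edg, ih]

theorem dst_le (g : K → Equiv.Perm (Fin n)) (b : Fin q → Equiv.Perm (Fin n))
    (u : List (K × (Fin q × Bool))) (p : Fin n) : dst g b u p ≤ u.length := by
  unfold dst
  calc (edg g b u p).toFinset.card ≤ (edg g b u p).length := List.toFinset_card_le _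
    _ = u.length := edg_length g b u p

/-- number of repetitions -/
def rep (g : K → Equiv.Perm (Fin n)) (b : Fin q → Equiv.Perm (Fin n))
    (u : List (K × (Fin q × Bool))) (p : Fin n) : ℕ := u.length - dst g b u p

theorem rep_cons (g : K → Equiv.Perm (Fin n)) (b : Fin q → Equiv.Perm (Fin n))
    (c : K × (Fin q × Bool)) (u : List (K × (Fin q × Bool))) (p : Fin n) :
    rep g b (c :: u) p = rep g b u p +
      if eid g b c (posn g b u p) ∈ (edg g b u p).toFinset then 1 else 0 := by
  classical
  have h := dst_le g b u p
  unfold rep
  have hd : dst g b (c :: u) p =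
      if eid g b c (posn g b u p) ∈ (edg g b u p).toFinset then dst g b u p
      else dst g b u p + 1 := by
    unfold dst
    rw [edg, List.toFinset_cons]
    split_ifs with hc
    · rw [Finset.insert_eq_of_mem hc]
    · rw [Finset.card_insert_of_notMem hc]
  rw [hd, List.length_cons]
  split_ifs <;> omega

/-- few blocks use an edge which is used before -/
theorem few [Fintype K] (g : K → Equiv.Perm (Fin n)) (hg : Mix g)
    (b : Fin q → Equiv.Perm (Fin n)) (y : Fin n) (E : Finset (Fin q × Fin n)) :
    ((univ.filter (fun c : K × (Fin q × Bool) => eid g b c y ∈ E)).card : ℝ) ≤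
      E.card * (4 / n * Fintype.card K) := by
  classical
  have hsub : univ.filter (fun c : K × (Fin q × Bool) => eid g b c y ∈ E) ⊆
      E.biUnion (fun e => ((univ.filter (fun k : K => g k y = e.2)).image
          (fun k => (k, (e.1, true)))) ∪ ((univ.filter (fun k : K => g k y = b e.1 e.2)).image
          (fun k => (k, (e.1, false))))) := by
    rintro ⟨k, i, s⟩ hc
    rw [Finset.mem_filter] at hc
    rw [Finset.mem_biUnion]
    refine ⟨_, hc.2, ?_⟩
    rw [Finset.mem_union]
    cases s with
    | true =>
      left
      rw [Finset.mem_image]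
      exact ⟨k, by simp [eid], rfl⟩
    | false =>
      right
      rw [Finset.mem_image]
      refine ⟨k, ?_, rfl⟩
      simp [eid]
  have h1 : ((univ.filter (fun c : K × (Fin q × Bool) => eid g b c y ∈ E)).card : ℝ) ≤
      ∑ e ∈ E, ((((univ.filter (fun k : K => g k y = e.2)).image
          (fun k => (k, (e.1, true)))) ∪ ((univ.filter (fun k : K => g k y = b e.1 e.2)).image
          (fun k => (k, (e.1, false))))).card : ℝ) := by
    have := (Finset.card_le_card hsub).trans Finset.card_biUnion_le
    exact_mod_cast this
  refine h1.trans ?_
  calc _ ≤ ∑ e ∈ E, (4 / n * Fintype.card K : ℝ) := by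
        apply Finset.sum_le_sum
        intro e _
        have h2 : (((univ.filter (fun k : K => g k y = e.2)).image
          (fun k => (k, (e.1, true)))) ∪ ((univ.filter (fun k : K => g k y = b e.1 e.2)).image
          (fun k => (k, (e.1, false))))).card ≤
          (univ.filter (fun k : K => g k y = e.2)).card +
            (univ.filter (fun k : K => g k y = b e.1 e.2)).card :=
          (Finset.card_union_le _ _).trans (Nat.add_le_add Finset.card_image_le
            Finset.card_image_le)
        have h3 := hg y e.2
        have h4 := hg y (b e.1 e.2)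
        have h5 : ((((univ.filter (fun k : K => g k y = e.2)).image
          (fun k => (k, (e.1, true)))) ∪ ((univ.filter (fun k : K => g k y = b e.1 e.2)).image
          (fun k => (k, (e.1, false))))).card : ℝ) ≤
          ((univ.filter (fun k : K => g k y = e.2)).card : ℝ) +
            ((univ.filter (fun k : K => g k y = b e.1 e.2)).card : ℝ) := by
          exact_mod_cast h2
        have h6 : (4 / n * Fintype.card K : ℝ) = 2 / n * Fintype.card K +
          2 / n * Fintype.card K := by ring
        rw [h6]
        linarith
    _ = E.card * (4 / n * Fintype.card K) := by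
        rw [Finset.sum_const, nsmul_eq_mul]

/-- the generating function -/
theorem gf [Fintype K] (J : ℕ) (hn : 1 ≤ n) (hq : 1 ≤ q)
    (g : K → Equiv.Perm (Fin n)) (hg : Mix g)
    (b : Fin q → Equiv.Perm (Fin n)) (p : Fin n) (Z : ℝ) (hZ : 0 ≤ Z) (j : ℕ) (hj : j ≤ J) :
    ∑ w : Fin j → K × (Fin q × Bool), Z ^ rep g b (List.ofFn w) p ≤
      ((Fintype.card (K × (Fin q × Bool)) : ℝ) * (1 + Z * (2 * J / n))) ^ j := by
  classical
  have hn' : (0 : ℝ) < n := by exact_mod_cast hn
  induction j with
  | zero =>
    simp [rep, dst, edg]
  | succ j ih =>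
    have ih' := ih (by omega)
    rw [← Equiv.sum_comp (Fin.consEquiv (fun _ : Fin (j + 1) => K × (Fin q × Bool))),
      Fintype.sum_prod_type_right]
    have hstep : ∀ u : Fin j → K × (Fin q × Bool),
        ∑ c : K × (Fin q × Bool),
          Z ^ rep g b (List.ofFn ((Fin.consEquiv (fun _ : Fin (j + 1) => K × (Fin q × Bool)))
            (c, u))) p ≤ Z ^ rep g b (List.ofFn u) p *
            ((Fintype.card (K × (Fin q × Bool)) : ℝ) * (1 + Z * (2 * J / n))) := by
      intro u
      have h1 : ∀ c : K × (Fin q × Bool),
          Z ^ rep g b (List.ofFn ((Fin.consEquiv (fun _ : Fin (j + 1) => K × (Fin q × Bool)))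
            (c, u))) p ≤ Z ^ rep g b (List.ofFn u) p * (1 +
              (if eid g b c (posn g b (List.ofFn u) p) ∈ (edg g b (List.ofFn u) p).toFinset
                then Z else 0)) := by
        intro c
        have h2 : List.ofFn ((Fin.consEquiv (fun _ : Fin (j + 1) => K × (Fin q × Bool)))
            (c, u)) = c :: List.ofFn u := by
          rw [List.ofFn_succ]
          simp [Fin.consEquiv]
        rw [h2, rep_cons]
        split_ifs with hc
        · rw [pow_succ]
          nlinarith [pow_nonneg hZ (rep g b (List.ofFn u) p)]
        · simp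
      calc _ ≤ ∑ c : K × (Fin q × Bool), Z ^ rep g b (List.ofFn u) p * (1 +
              (if eid g b c (posn g b (List.ofFn u) p) ∈ (edg g b (List.ofFn u) p).toFinset
                then Z else 0)) := Finset.sum_le_sum (fun c _ => h1 c)
        _ = Z ^ rep g b (List.ofFn u) p * ((Fintype.card (K × (Fin q × Bool)) : ℝ) +
            Z * ((univ.filter (fun c : K × (Fin q × Bool) =>
              eid g b c (posn g b (List.ofFn u) p) ∈
                (edg g b (List.ofFn u) p).toFinset)).card : ℝ)) := by
            rw [← Finset.mul_sum, Finset.sum_add_distrib]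
            congr 2
            · simp
            · rw [← Finset.sum_filter, Finset.sum_const, nsmul_eq_mul, mul_comm]
        _ ≤ _ := by
            apply mul_le_mul_of_nonneg_left _ (pow_nonneg hZ _)
            have h3 := few g hg b (posn g b (List.ofFn u) p) (edg g b (List.ofFn u) p).toFinset
            have h4 : ((edg g b (List.ofFn u) p).toFinset.card : ℝ) ≤ J := by
              have h5 : (edg g b (List.ofFn u) p).toFinset.card ≤ J := by
                calc (edg g b (List.ofFn u) p).toFinset.card
                    ≤ (edg g b (List.ofFn u) p).length := List.toFinset_card_le _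
                  _ = j := by rw [edg_length, List.length_ofFn]
                  _ ≤ J := by omega
              exact_mod_cast h5
            have hc : (Fintype.card (K × (Fin q × Bool)) : ℝ) = 2 * q * Fintype.card K := by
              rw [Fintype.card_prod, Fintype.card_prod, Fintype.card_fin, Fintype.card_bool]
              push_cast
              ring
            have hq' : (1 : ℝ) ≤ q := by exact_mod_cast hq
            have hK0 : (0 : ℝ) ≤ Fintype.card K := Nat.cast_nonneg _
            have h6 : ((edg g b (List.ofFn u) p).toFinset.card : ℝ) *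
                (4 / n * Fintype.card K) ≤
                (Fintype.card (K × (Fin q × Bool)) : ℝ) * (2 * J / n) := by
              rw [hc]
              calc ((edg g b (List.ofFn u) p).toFinset.card : ℝ) *
                (4 / n * Fintype.card K) ≤ J * (4 / n * Fintype.card K) :=
                    mul_le_mul_of_nonneg_right h4 (by positivity)
                _ = 1 * (2 * Fintype.card K * (2 * J / n)) := by
                    field_simp
                    ring
                _ ≤ q * (2 * Fintype.card K * (2 * J / n)) :=
                    mul_le_mul_of_nonneg_right hq' (by positivity)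
                _ = _ := by ring
            have h7 := mul_le_mul_of_nonneg_left (h3.trans h6) hZ
            linarith
    calc _ ≤ ∑ u : Fin j → K × (Fin q × Bool), Z ^ rep g b (List.ofFn u) p *
            ((Fintype.card (K × (Fin q × Bool)) : ℝ) * (1 + Z * (2 * J / n))) :=
          Finset.sum_le_sum (fun u _ => hstep u)
      _ = (∑ u : Fin j → K × (Fin q × Bool), Z ^ rep g b (List.ofFn u) p) *
            ((Fintype.card (K × (Fin q × Bool)) : ℝ) * (1 + Z * (2 * J / n))) := by
          rw [Finset.sum_mul]
      _ ≤ _ := by
          rw [pow_succ]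
          exact mul_le_mul_of_nonneg_right ih' (by positivity)

end REPaux

open REPaux in
/-- few repeated `b`-edges: for fixed `b` and starting point `p` all but a small fraction of the
block words of length `J` use more than `J - m` different `b`-edges -/
theorem REP (n q J m : ℕ) (hn : 1 ≤ n) (hq : 1 ≤ q) {K : Type*} [Fintype K] [Nonempty K]
    (g : K → Equiv.Perm (Fin n)) (hg : Mix g) (b : Fin q → Equiv.Perm (Fin n)) (hJ : 2 * J ≤ n)
    (p : Fin n) :
    (Nat.card {w : Fin J → K × (Fin q × Bool) // dst g b (List.ofFn w) p + m ≤ J} : ℝ) ≤
      2 ^ J * (2 * J / n : ℝ) ^ m * (Fintype.card (K × (Fin q × Bool)) : ℝ) ^ J := by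
  classical
  have hn' : (0 : ℝ) < n := by exact_mod_cast hn
  rw [Nat.card_eq_fintype_card, Fintype.card_subtype]
  rcases Nat.eq_zero_or_pos J with rfl | hJpos
  · rcases Nat.eq_zero_or_pos m with rfl | hm
    · simp only [pow_zero, mul_one]
      have : (univ.filter (fun w : Fin 0 → K × (Fin q × Bool) =>
          dst g b (List.ofFn w) p + 0 ≤ 0)).card ≤ 1 := by
        calc _ ≤ (univ : Finset (Fin 0 → K × (Fin q × Bool))).card := Finset.card_filter_le _ _
          _ = 1 := by simp
      exact_mod_cast this
    · rw [Finset.filter_false_of_mem]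
      · simp only [Finset.card_empty, Nat.cast_zero]
        positivity
      · intro w _
        omega
  · set θ : ℝ := 2 * J / n with hθ
    have hθpos : 0 < θ := by
      have : (0 : ℝ) < J := by exact_mod_cast hJpos
      positivity
    have hθ1 : θ ≤ 1 := by
      rw [hθ, div_le_one hn']
      exact_mod_cast hJ
    have hZ1 : 1 ≤ θ⁻¹ := (one_le_inv₀ hθpos).mpr hθ1
    have hgf := gf J hn hq g hg b p θ⁻¹ (by positivity) J le_rfl
    rw [← hθ, inv_mul_cancel₀ hθpos.ne'] at hgf
    have hcount : ((univ.filter (fun w : Fin J → K × (Fin q × Bool) =>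
        dst g b (List.ofFn w) p + m ≤ J)).card : ℝ) * θ⁻¹ ^ m ≤
        ∑ w : Fin J → K × (Fin q × Bool), θ⁻¹ ^ REPaux.rep g b (List.ofFn w) p := by
      rw [← nsmul_eq_mul, ← Finset.sum_const]
      calc _ ≤ ∑ w ∈ univ.filter (fun w : Fin J → K × (Fin q × Bool) =>
            dst g b (List.ofFn w) p + m ≤ J), θ⁻¹ ^ REPaux.rep g b (List.ofFn w) p := by
            apply Finset.sum_le_sum
            intro w hw
            apply pow_le_pow_right₀ hZ1
            rw [Finset.mem_filter] at hw
            unfold REPaux.rep
            rw [List.length_ofFn]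
            omega
        _ ≤ _ := by
            apply Finset.sum_le_sum_of_subset_of_nonneg (Finset.filter_subset _ _)
            intro w _ _
            positivity
    have h1 := hcount.trans hgf
    have h2 : ((univ.filter (fun w : Fin J → K × (Fin q × Bool) =>
        dst g b (List.ofFn w) p + m ≤ J)).card : ℝ) =
        (((univ.filter (fun w : Fin J → K × (Fin q × Bool) =>
        dst g b (List.ofFn w) p + m ≤ J)).card : ℝ) * θ⁻¹ ^ m) * θ ^ m := by
      rw [mul_assoc, ← mul_pow, inv_mul_cancel₀ hθpos.ne', one_pow, mul_one]
    rw [h2]
    calc _ ≤ ((Fintype.card (K × (Fin q × Bool)) : ℝ) * (1 + 1)) ^ J * θ ^ m :=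
          mul_le_mul_of_nonneg_right h1 (by positivity)
      _ = _ := by
          rw [mul_pow]
          norm_num
          ring

end RC852
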